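import Pool.Agent.Lib.MP_794d84_al.Geo

set_option autoImplicit false
set_option maxHeartbeats 4000000

/-!
# A group of nilpotency class 3 (up to index 3) with polynomial geodesic growth
-/

namespace Pool.Agent.Results.MP_794d84_al.ClassThree

open Pool.Agent.Lib.MP_794d84_al
open scoped commutatorElement

/-- The word length of `g` with respect to `S`: the least length of a word over `S` with
value `g`. -/
noncomputable def wordLength {G : Type} [Group G] (S : Set G) (g : G) : ℕ :=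
  sInf {k : ℕ | ∃ v : List G, (∀ x ∈ v, x ∈ S) ∧ v.prod = g ∧ v.length = k}

/-- The word `w` over `S` is a geodesic: its length is the word length of its value. -/
def IsGeodesic {G : Type} [Group G] (S : Set G) (w : List G) : Prop :=
  (∀ x ∈ w, x ∈ S) ∧ w.length = wordLength S w.prod

/-- The geodesic growth function: the number of geodesic words over `S` of length at most `n`
(an extended natural number, so that an infinite set would count as `⊤`). -/
noncomputable def geodesicGrowth {G : Type} [Group G] (S : Set G) (n : ℕ) : ℕ∞ :=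
  {w : List G | IsGeodesic S w ∧ w.length ≤ n}.encard

/-- The geodesic growth of `(G, S)` is polynomial. -/
def HasPolynomialGeodesicGrowth {G : Type} [Group G] (S : Set G) : Prop :=
  ∃ C d : ℕ, ∀ n : ℕ, 1 ≤ n → geodesicGrowth S n ≤ ((C * n ^ d : ℕ) : ℕ∞)

/-- The group generated by `a` and `t`. -/
private abbrev Gp : Type := Subgroup.closure (Set.range io)

/-- The generators as elements of `Gp`. -/
private def gi (x : Ltr) : Gp := ⟨io x, Subgroup.subset_closure ⟨x, rfl⟩⟩

private lemma gi_prod (l : List Ltr) : (((l.map gi).prod : Gp) : Amb) = (l.map io).prod := by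
  induction l with
  | nil => rfl
  | cons x l ih =>
    rw [List.map_cons, List.prod_cons, Subgroup.coe_mul, ih, List.map_cons, List.prod_cons]
    rfl

private lemma io_tp_tm : io Ltr.tp * io Ltr.tm = 1 := by
  simp only [io, el_mul, map_one, mul_one]
  simp [el_one]

private lemma exists_lift (w : List Gp) (h : ∀ x ∈ w, x ∈ Set.range gi) :
    ∃ l : List Ltr, l.map gi = w := by
  induction w with
  | nil => exact ⟨[], rfl⟩
  | cons x w ih =>
    obtain ⟨y, hy⟩ := h x (by simp)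
    obtain ⟨l, hl⟩ := ih (fun z hz => h z (by simp [hz]))
    exact ⟨y :: l, by rw [List.map_cons, hy, hl]⟩

/-- Powers of the three letters. -/
private lemma el_pow (j : ZMod 3) (n : ℕ) : (el (gen j 1) 0) ^ n = el (gen j (n : ℤ)) 0 := by
  induction n with
  | zero => simp [el_one]
  | succ n ih =>
    rw [pow_succ, ih, el_mul, rotp_0, MulAut.one_apply, ← gen_add, add_zero]
    push_cast; rfl

private lemma el_inv (x : H9 ℤ) : (el x 0)⁻¹ = el x⁻¹ 0 := by
  rw [inv_eq_iff_mul_eq_one, el_mul, rotp_0, MulAut.one_apply, mul_inv_cancel, add_zero, el_one]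

private lemma el_comm (x y : H9 ℤ) : ⁅el x 0, el y 0⁆ = el ⁅x, y⁆ 0 := by
  simp only [commutatorElement_def, el_inv, el_mul, rotp_0, MulAut.one_apply, add_zero]

private lemma comm_AB (m n : ℤ) : ⁅H9.A m, H9.B n⁆ = ⟨0, 0, 0, m * n, 0, 0, 0, 0, 0⟩ := by
  rw [commutatorElement_def]
  ext <;> simp

private lemma comm_abC (m n : ℤ) :
    ⁅(⟨0, 0, 0, m, 0, 0, 0, 0, 0⟩ : H9 ℤ), H9.C n⁆ = ⟨0, 0, 0, 0, 0, 0, m * n, 0, -(m * n)⟩ := by
  rw [commutatorElement_def]
  ext <;> simp
  ring

private lemma mem_gen (j : ZMod 3) : el (gen j 1) 0 ∈ Subgroup.closure (Set.range io) := by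
  have ha : el (gen 0 1) 0 ∈ Subgroup.closure (Set.range io) :=
    Subgroup.subset_closure ⟨Ltr.ap, rfl⟩
  have htp : el 1 1 ∈ Subgroup.closure (Set.range io) :=
    Subgroup.subset_closure ⟨Ltr.tp, rfl⟩
  have htm : el 1 (-1) ∈ Subgroup.closure (Set.range io) :=
    Subgroup.subset_closure ⟨Ltr.tm, rfl⟩
  have step : ∀ j : ZMod 3, el (gen j 1) 0 ∈ Subgroup.closure (Set.range io) →
      el (gen (j + 1) 1) 0 ∈ Subgroup.closure (Set.range io) := by
    intro j hj
    have := mul_mem (mul_mem htp hj) htm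
    rw [el_mul, el_mul, map_one, mul_one, one_mul, rotp_gen] at this
    rwa [add_comm 1 j, add_zero, add_neg_cancel] at this
  obtain rfl | rfl | rfl := zmod3_cases j
  · exact ha
  · simpa using step 0 ha
  · have h1 : el (gen 1 1) 0 ∈ Subgroup.closure (Set.range io) := by simpa using step 0 ha
    have e : (1 : ZMod 3) + 1 = 2 := by decide
    have := step 1 h1
    rwa [e] at this

private lemma exists_pow (H : Subgroup Gp) (hH : H.FiniteIndex) (j : ZMod 3) :
    ∃ n : ℕ, 0 < n ∧ ∃ x : Gp, x ∈ H ∧ (x : Amb) = el (gen j (n : ℤ)) 0 := by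
  obtain ⟨n, hn0, hn, hmem⟩ := Subgroup.exists_pow_mem_of_index_ne_zero hH.index_ne_zero
    (⟨el (gen j 1) 0, mem_gen j⟩ : Gp)
  refine ⟨n, hn0, _, hmem, ?_⟩
  rw [Subgroup.coe_pow, el_pow]

private lemma not_comm (n0 n1 n2 : ℕ) (h0 : 0 < n0) (h1 : 0 < n1) (h2 : 0 < n2) :
    ⁅⁅el (gen 0 (n0 : ℤ)) 0, el (gen 1 (n1 : ℤ)) 0⁆, el (gen 2 (n2 : ℤ)) 0⁆ ≠ 1 := by
  intro h3
  rw [el_comm, el_comm, gen_0, gen_1, gen_2, comm_AB, comm_abC, ← el_one] at h3
  have h4 := congrArg (fun z : Amb => z.left.abc) h3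
  simp only [el, H9.one_abc] at h4
  have h5 : (n0 : ℤ) * n1 * n2 ≠ 0 := by positivity
  exact h5 h4

/-- Every finite-index subgroup has a nontrivial triple commutator. -/
private lemma not_class_two (H : Subgroup Gp) (hH : H.FiniteIndex) :
    ∃ x ∈ H, ∃ y ∈ H, ∃ z ∈ H, ⁅⁅x, y⁆, z⁆ ≠ 1 := by
  obtain ⟨n0, h0, x0, hx0', hx0⟩ := exists_pow H hH 0
  obtain ⟨n1, h1, x1, hx1', hx1⟩ := exists_pow H hH 1
  obtain ⟨n2, h2, x2, hx2', hx2⟩ := exists_pow H hH 2
  refine ⟨x0, hx0', x1, hx1', x2, hx2', fun h => ?_⟩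
  have h3 := congrArg (Subgroup.subtype _) h
  rw [map_commutatorElement, map_commutatorElement, map_one, Subgroup.subtype_apply,
    Subgroup.subtype_apply, Subgroup.subtype_apply, hx0, hx1, hx2] at h3
  exact not_comm n0 n1 n2 h0 h1 h2 h3

/-- The subgroup `N` of `Gp`: elements of rotation part `0`. -/
private def q : Gp →* Multiplicative (ZMod 3) :=
  (SemidirectProduct.rightHom).comp (Subgroup.closure (Set.range io)).subtype

private lemma q_surj : Function.Surjective q := by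
  have h : ∀ j : ZMod 3, ∃ x : Gp, q x = Multiplicative.ofAdd j := by
    intro j
    obtain rfl | rfl | rfl := zmod3_cases j
    · exact ⟨1, by rw [map_one]; rfl⟩
    · exact ⟨gi Ltr.tp, rfl⟩
    · exact ⟨gi Ltr.tm, by show Multiplicative.ofAdd (-1 : ZMod 3) = _; rfl⟩
  intro j
  obtain ⟨x, hx⟩ := h j.toAdd
  exact ⟨x, hx⟩

private abbrev N : Subgroup Gp := q.ker

private lemma index_N : N.index = 3 := by
  rw [Subgroup.index_ker, MonoidHom.range_eq_top.2 q_surj]
  simp

private lemma mem_N {x : Gp} (hx : x ∈ N) : (x : Amb) = el (x : Amb).left 0 := by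
  have h : (x : Amb).right = 1 := hx
  exact SemidirectProduct.ext rfl h

/-- The elements of `H9 ℤ` with `a = b = c = 0`. -/
private def K1 : Subgroup (H9 ℤ) where
  carrier := {x | x.a = 0 ∧ x.b = 0 ∧ x.c = 0}
  one_mem' := ⟨rfl, rfl, rfl⟩
  mul_mem' := by
    rintro x y ⟨h1, h2, h3⟩ ⟨k1, k2, k3⟩
    refine ⟨?_, ?_, ?_⟩ <;> simp [h1, h2, h3, k1, k2, k3]
  inv_mem' := by
    rintro x ⟨h1, h2, h3⟩
    refine ⟨?_, ?_, ?_⟩ <;> simp [h1, h2, h3]

/-- The elements of `H9 ℤ` with `a = b = c = ab = bc = ca = 0`. -/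
private def K2 : Subgroup (H9 ℤ) where
  carrier := {x | x.a = 0 ∧ x.b = 0 ∧ x.c = 0 ∧ x.ab = 0 ∧ x.bc = 0 ∧ x.ca = 0}
  one_mem' := ⟨rfl, rfl, rfl, rfl, rfl, rfl⟩
  mul_mem' := by
    rintro x y ⟨h1, h2, h3, h4, h5, h6⟩ ⟨k1, k2, k3, k4, k5, k6⟩
    refine ⟨?_, ?_, ?_, ?_, ?_, ?_⟩ <;> simp [h1, h2, h3, h4, h5, h6, k1, k2, k3, k4, k5, k6]
  inv_mem' := by
    rintro x ⟨h1, h2, h3, h4, h5, h6⟩
    refine ⟨?_, ?_, ?_, ?_, ?_, ?_⟩ <;> simp [h1, h2, h3, h4, h5, h6]

private lemma lcs_H9 : (⊤ : Subgroup (H9 ℤ)).lowerCentralSeries 3 = ⊥ := by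
  have e1 : (⊤ : Subgroup (H9 ℤ)).lowerCentralSeries 1 ≤ K1 := by
    rw [Subgroup.lowerCentralSeries_succ, Subgroup.commutator_le]
    intro x _ y _
    show (⁅x, y⁆).a = 0 ∧ (⁅x, y⁆).b = 0 ∧ (⁅x, y⁆).c = 0
    simp only [commutatorElement_def, H9.mul_a, H9.mul_b, H9.mul_c, H9.inv_a, H9.inv_b, H9.inv_c]
    refine ⟨by ring, by ring, by ring⟩
  have e2 : (⊤ : Subgroup (H9 ℤ)).lowerCentralSeries 2 ≤ K2 := by
    rw [Subgroup.lowerCentralSeries_succ, Subgroup.commutator_le]
    intro u hu z _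
    obtain ⟨ha, hb, hc⟩ := e1 hu
    show (⁅u, z⁆).a = 0 ∧ (⁅u, z⁆).b = 0 ∧ (⁅u, z⁆).c = 0 ∧ (⁅u, z⁆).ab = 0 ∧
      (⁅u, z⁆).bc = 0 ∧ (⁅u, z⁆).ca = 0
    simp only [commutatorElement_def, H9.mul_a, H9.mul_b, H9.mul_c, H9.inv_a, H9.inv_b, H9.inv_c,
      H9.mul_ab, H9.mul_bc, H9.mul_ca, H9.inv_ab, H9.inv_bc, H9.inv_ca, ha, hb, hc]
    refine ⟨by ring, by ring, by ring, by ring, by ring, by ring⟩
  rw [Subgroup.lowerCentralSeries_succ, eq_bot_iff, Subgroup.commutator_le]
  intro v hv w _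
  obtain ⟨ha, hb, hc, hab, hbc, hca⟩ := e2 hv
  rw [Subgroup.mem_bot, commutatorElement_eq_one_iff_mul_comm]
  ext <;> simp [ha, hb, hc, hab, hbc, hca] <;> ring

private lemma pow_coords (x : H9 ℤ) (n : ℕ) :
    (x ^ n).a = n * x.a ∧ (x ^ n).b = n * x.b ∧ (x ^ n).c = n * x.c := by
  induction n with
  | zero => simp
  | succ n ih =>
    rw [pow_succ]
    simp only [H9.mul_a, H9.mul_b, H9.mul_c, ih.1, ih.2.1, ih.2.2]
    push_cast
    refine ⟨by ring, by ring, by ring⟩

private lemma pow_coords' (x : H9 ℤ) (ha : x.a = 0) (hb : x.b = 0) (hc : x.c = 0) (n : ℕ) :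
    x ^ n = ⟨0, 0, 0, n * x.ab, n * x.bc, n * x.ca, n * x.abc, n * x.bca, n * x.cab⟩ := by
  induction n with
  | zero => ext <;> simp
  | succ n ih =>
    rw [pow_succ, ih]
    ext <;> simp [ha, hb, hc] <;> ring

private lemma torsion_free_H9 (x : H9 ℤ) (n : ℕ) (hn : 0 < n) (h : x ^ n = 1) : x = 1 := by
  have hn' : (n : ℤ) ≠ 0 := by positivity
  obtain ⟨h1, h2, h3⟩ := pow_coords x n
  rw [h] at h1 h2 h3
  simp only [H9.one_a, H9.one_b, H9.one_c] at h1 h2 h3
  have ha : x.a = 0 := by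
    rcases mul_eq_zero.1 h1.symm with h | h
    · exact absurd h hn'
    · exact h
  have hb : x.b = 0 := by
    rcases mul_eq_zero.1 h2.symm with h | h
    · exact absurd h hn'
    · exact h
  have hc : x.c = 0 := by
    rcases mul_eq_zero.1 h3.symm with h | h
    · exact absurd h hn'
    · exact h
  have h4 := pow_coords' x ha hb hc n
  rw [h] at h4
  have key : ∀ y : ℤ, (0 : ℤ) = n * y → y = 0 := by
    intro y hy
    rcases mul_eq_zero.1 hy.symm with h | h
    · exact absurd h hn'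
    · exact h
  ext
  · exact ha
  · exact hb
  · exact hc
  · exact key _ (congrArg H9.ab h4)
  · exact key _ (congrArg H9.bc h4)
  · exact key _ (congrArg H9.ca h4)
  · exact key _ (congrArg H9.abc h4)
  · exact key _ (congrArg H9.bca h4)
  · exact key _ (congrArg H9.cab h4)

private lemma el_pow' (x : H9 ℤ) (n : ℕ) : (el x 0) ^ n = el (x ^ n) 0 := by
  induction n with
  | zero => simp [el_one]
  | succ n ih => rw [pow_succ, ih, el_mul, rotp_0, MulAut.one_apply, ← pow_succ, add_zero]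

private lemma torsion_free_N (x : Gp) (hx : x ∈ N) (n : ℕ) (hn : 0 < n) (h : x ^ n = 1) :
    x = 1 := by
  have h1 := congrArg (Subgroup.subtype _) h
  rw [map_pow, map_one, Subgroup.subtype_apply, mem_N hx, el_pow'] at h1
  have h2 : (x : Amb).left ^ n = 1 := congrArg (fun z : Amb => z.left) h1
  have h3 := torsion_free_H9 _ n hn h2
  apply Subtype.ext
  rw [mem_N hx, h3]
  rfl

/-- The projection of `N` to `H9 ℤ`. -/
private def toH : N →* H9 ℤ where
  toFun x := (x : Amb).left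
  map_one' := rfl
  map_mul' x y := by
    show (((x : Gp) : Amb) * ((y : Gp) : Amb)).left = _
    rw [mem_N x.2, mem_N y.2, el_mul, rotp_0, MulAut.one_apply]
    rfl

private lemma toH_inj : Function.Injective toH := by
  intro x y h
  apply Subtype.ext
  apply Subtype.ext
  rw [mem_N x.2, mem_N y.2]
  exact congrArg (fun z => el z 0) h

private lemma lcs_N : (⊤ : Subgroup N).lowerCentralSeries 3 = ⊥ := by
  rw [← (Subgroup.map_eq_bot_iff_of_injective _ toH_inj), Subgroup.map_lowerCentralSeries,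
    eq_bot_iff, ← lcs_H9]
  exact Subgroup.lowerCentralSeries_mono _ le_top

private lemma nilpotent_N : Group.IsNilpotent N :=
  Group.isNilpotent_top.1 (Subgroup.isNilpotent_of_lowerCentralSeries_eq_bot lcs_N)

/-- A nilpotent subgroup of class at most `2` has trivial triple commutators. -/
private lemma lcs2 {G : Type} [Group G] (H : Subgroup G) (h1 : Group.IsNilpotent H)
    (h2 : Group.nilpotencyClass H ≤ 2) (x y z : G) (hx : x ∈ H) (hy : y ∈ H) (hz : z ∈ H) :
    ⁅⁅x, y⁆, z⁆ = 1 := by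
  have h3 := Subgroup.lowerCentralSeries_eq_bot_of_nilpotencyClass_le h2
  have hmem : ⁅⁅x, y⁆, z⁆ ∈ H.lowerCentralSeries 2 :=
    Subgroup.commutator_mem_commutator (Subgroup.commutator_mem_commutator hx hy) hz
  rwa [h3, Subgroup.mem_bot] at hmem

/-- The negative answer to Q1: there is a group `G`, generated by an element `a` and an element
`t` of order 3, with polynomial geodesic growth for `{a, a⁻¹, t, t⁻¹}`, no finite-index subgroup
of which is nilpotent of class at most 2. It has a normal subgroup of index 3 which is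
torsion-free and nilpotent of class exactly 3. -/
theorem result : ∃ (G : Type) (_ : Group G) (a t : G),
    Subgroup.closure {a, t} = ⊤ ∧ orderOf t = 3 ∧
    HasPolynomialGeodesicGrowth ({a, a⁻¹, t, t⁻¹} : Set G) ∧
    (∃ N : Subgroup G, N.Normal ∧ N.index = 3 ∧
      (∀ x ∈ N, ∀ n : ℕ, 0 < n → x ^ n = 1 → x = 1) ∧
      Group.IsNilpotent N ∧ Group.nilpotencyClass N = 3) ∧
    ¬ ∃ H : Subgroup G, H.FiniteIndex ∧ Group.IsNilpotent H ∧ Group.nilpotencyClass H ≤ 2 := by
  classical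
  have hinv1 : gi Ltr.am = (gi Ltr.ap)⁻¹ := by
    rw [eq_inv_iff_mul_eq_one]
    exact Subtype.ext io_am_ap
  have hinv2 : gi Ltr.tm = (gi Ltr.tp)⁻¹ := by
    rw [eq_comm, inv_eq_iff_mul_eq_one]
    exact Subtype.ext io_tp_tm
  have hrange : ({gi Ltr.ap, (gi Ltr.ap)⁻¹, gi Ltr.tp, (gi Ltr.tp)⁻¹} : Set Gp) =
      Set.range gi := by
    ext x
    rw [← hinv1, ← hinv2]
    constructor
    · rintro (rfl | rfl | rfl | rfl) <;> exact ⟨_, rfl⟩
    · rintro ⟨y, rfl⟩
      cases y <;> simp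
  have hno : ¬ ∃ H : Subgroup Gp, H.FiniteIndex ∧ Group.IsNilpotent H ∧
      Group.nilpotencyClass H ≤ 2 := by
    rintro ⟨H, hH, h1, h2⟩
    obtain ⟨x, hx, y, hy, z, hz, hxyz⟩ := not_class_two H hH
    exact hxyz (lcs2 H h1 h2 x y z hx hy hz)
  refine ⟨Gp, inferInstance, gi Ltr.ap, gi Ltr.tp, ?_, ?_, ?_, ⟨N, inferInstance, index_N,
    fun x hx n hn h => torsion_free_N x hx n hn h, nilpotent_N, ?_⟩, hno⟩
  · -- generation
    have h1 : Subgroup.closure (Set.range gi) = (⊤ : Subgroup Gp) := by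
      have : Set.range gi = ((↑) : Gp → Amb) ⁻¹' (Set.range io) := by
        ext x
        constructor
        · rintro ⟨y, rfl⟩; exact ⟨y, rfl⟩
        · rintro ⟨y, hy⟩; exact ⟨y, Subtype.ext hy⟩
      rw [this]
      exact Subgroup.closure_closure_coe_preimage
    rw [eq_top_iff, ← h1, Subgroup.closure_le, ← hrange]
    rintro x (rfl | rfl | rfl | rfl)
    · exact Subgroup.subset_closure (by simp)
    · exact inv_mem (Subgroup.subset_closure (by simp))
    · exact Subgroup.subset_closure (by simp)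
    · exact inv_mem (Subgroup.subset_closure (by simp))
  · -- the order of `t`
    have h3 : (gi Ltr.tp) ^ 3 = 1 := by
      apply Subtype.ext
      show (io Ltr.tp) ^ 3 = 1
      rw [pow_succ, pow_succ, pow_one]
      show el 1 1 * el 1 1 * el 1 1 = 1
      rw [el_mul, el_mul, map_one, map_one, mul_one, mul_one]
      have : (1 : ZMod 3) + 1 + 1 = 0 := by decide
      rw [this]
      rfl
    have h1 : gi Ltr.tp ≠ 1 := by
      intro h
      have := congrArg q h
      rw [map_one] at this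
      have h2 : (Multiplicative.ofAdd (1 : ZMod 3)) = 1 := this
      have h4 : (1 : ZMod 3) = 0 := h2
      exact absurd h4 (by decide)
    have : Fact (Nat.Prime 3) := ⟨Nat.prime_three⟩
    exact orderOf_eq_prime h3 h1
  · -- geodesic growth
    rw [hrange]
    obtain ⟨M, hM⟩ := geo_count
    refine ⟨9 ^ (M + 1), M + 1, fun n hn => ?_⟩
    have hsub : {w : List Gp | IsGeodesic (Set.range gi) w ∧ w.length ≤ n} ⊆
        (((T M n).image fun l => l.map gi : Finset (List Gp)) : Set (List Gp)) := by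
      rintro w ⟨⟨h2, h3⟩, h1⟩
      obtain ⟨l, rfl⟩ := exists_lift w h2
      rw [Finset.mem_coe]
      refine Finset.mem_image.2 ⟨l, hM n l ?_ (by simpa using h1), rfl⟩
      intro l' hl'
      have h4 : wordLength (Set.range gi) (l.map gi).prod ≤ (l'.map gi).length := by
        refine Nat.sInf_le ⟨l'.map gi, ?_, ?_, rfl⟩
        · intro x hx
          obtain ⟨y, _, rfl⟩ := List.mem_map.1 hx
          exact ⟨y, rfl⟩
        · apply Subtype.ext
          rw [gi_prod, gi_prod, hl']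
      rw [← h3] at h4
      simpa using h4
    refine (Set.encard_le_encard hsub).trans ?_
    rw [Set.encard_coe_eq_coe_finsetCard]
    refine Nat.cast_le.2 (Finset.card_image_le.trans ((card_T M n).trans ?_))
    rw [← mul_pow]
    exact Nat.pow_le_pow_left (by omega) _
  · -- the class
    have := nilpotent_N
    have h3 : Group.nilpotencyClass N ≤ 3 :=
      Subgroup.lowerCentralSeries_eq_bot_iff_nilpotencyClass_le.1 lcs_N
    have h4 : ¬ Group.nilpotencyClass N ≤ 2 := by
      intro h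
      refine hno ⟨N, ⟨?_⟩, nilpotent_N, h⟩
      rw [index_N]
      norm_num
    omega

end Pool.Agent.Results.MP_794d84_al.ClassThree
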